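import Pool.Agent.U435.BB.Mur

/-!
# Murre's filtrations and composites of homologically trivial correspondences

`𝒱` is a class of smooth projective geometrically irreducible varieties over a field `k` which is
closed under products (for the problem: all of them), `C` the Chow groups with rational coefficients
(in the form of their formal properties, `IsChowProj`) and `H` a Weil cohomology theory
(`IsWeilProj`). `Amp X D` means that `D` is the class of an ample divisor on `X`. It is assumed that
every variety of the class satisfies the standard conjecture of Lefschetz type `B(X)`.

`Composite H n X i x` says that `x ∈ CH^i(X)` is obtained by applying successively `n` homologically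
trivial correspondences, through arbitrary varieties of the class; `compSpan H X i n` is the span of
these classes, and `composites H` is the filtration formed by these subspaces.

**Theorem.** A Bloch-Beilinson filtration exists if and only if

* the composition of any `i + 1` homologically trivial correspondences between any varieties, with
  values in `CH^i(X)`, is zero, for all `X` and `i`, and
* a self-correspondence of degree zero of `X` which acts as zero on `H^(2i-n)(X)` maps a composite of
  `n` homologically trivial correspondences in `CH^i(X)` to a combination of composites of `n + 1` of
  them.

If these properties hold then every variety `X` of the class has a Chow-Kunneth decomposition, and for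
every Chow-Kunneth decomposition of `X` and all `i` and `n` the step `F^n CH^i(X)` of its filtration is
the one of the Bloch-Beilinson filtration and is spanned by the composites of `n` homologically trivial
correspondences; in particular it does not depend on the decomposition. By the theorem of Jannsen a
Bloch-Beilinson filtration exists if the conjectures of Murre hold for all varieties.

The geometric input is `HasSections`: a cycle class of dimension `< dim X / 2` on `X`, `dim X ≥ 2`, is
the push-forward of a class on a smooth hypersurface section `Z` of `X` (theorem of Kleiman on the
smoothing of cycles, with the theorem of Bertini for hypersurfaces which contain a smooth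
subscheme), for which `H^i(X) → H^i(Z)` is onto for `i < dim Z` (Lefschetz).
-/

set_option autoImplicit false

open Pool.Agent.H914 Pool.Agent.W492.BB Pool.Agent.TH133 Pool.Agent.U435.BB

universe u v w

namespace Pool.Agent.Results.MP_10f4af_ag.MurreByComposites

/-- **Murre's filtrations consist of the composites of homologically trivial correspondences.** -/
theorem result {k : Type u} [Field k] {𝒱 : VarClass k} {C : TheoryData.{u, v, 0} 𝒱 ℚ}
    [IsChowProj C] {K : Type w} [Field K] (H : WeilTheoryData.{u, v, w} C K) [IsWeilProj H]
    (Amp : ∀ X : 𝒱.Obj, C.A X → Prop) (hS : HasSections H Amp)
    (hL : ∀ X : 𝒱.Obj, ∃ D : C.A X, Amp X D ∧ LefschetzB H D) :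
    (((∀ (X : 𝒱.Obj) (i : ℕ), compSpan H X i (i + 1) = ⊥) ∧
      ∀ (X : 𝒱.Obj) (i n : ℕ) (Γ : C.A (X.prod X)), C.Deg X.dim Γ → Kills H Γ (2 * i - n) →
        ∀ x ∈ compSpan H X i n, C.act Γ x ∈ compSpan H X i (n + 1)) ↔
      ∃ F : Filtration C, IsBB H F) ∧
    ∀ F : Filtration C, IsBB H F → ∀ X : 𝒱.Obj, (∃ π, IsCK H X π) ∧
      ∀ π, IsCK H X π → ∀ i n : ℕ, ckFil C π i n = F.F X i n ∧ F.F X i n = compSpan H X i n :=
  murre_by_composites hS hL

end Pool.Agent.Results.MP_10f4af_ag.MurreByComposites
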