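import Pool.Agent.U3.UC.Geo3

/-!
# Chow-Kunneth decompositions with one large summand

`𝒱` is a class of smooth projective geometrically irreducible varieties over the field `k` closed
under products (for example all of them), `C` the Chow groups with rational coefficients (in the
form of their formal properties, `IsChowProj`), `H` a Weil cohomology theory (`IsWeilProj`), and `X`
a variety with a Chow-Kunneth decomposition `π`.

Suppose that for all degrees `n` except one degree `m` the motive `h^n(X) = (X, π n)` is
finite-dimensional in the weak sense that all products `π n ∘ x` with homologically trivial `x` are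
nilpotent (`HomNil`; this holds if `h^n(X)` is finite-dimensional in the sense of Kimura). Nothing
is assumed on `h^m(X)`. For instance `X` is a surface (`m = 2`) or a complete intersection of ample
divisors in an abelian variety (`m = dim X`).

1. Classification: the Chow-Kunneth decompositions of `X` are exactly the conjugates, by units which
   act as the identity on the cohomology, of the decompositions obtained from `π` by moving mutually
   orthogonal phantoms (direct factors without cohomology) of `h^m(X)` to the other degrees.
2. All Chow-Kunneth decompositions of `X` are conjugate if and only if `X` has no phantoms.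
3. The filtrations on the Chow groups of `X` attached to the Chow-Kunneth decompositions of `X` are
   all equal if and only if the phantoms of `X` and the correspondences which raise the weights with
   respect to `π` act as zero on the Chow groups of `X`.
4. If the phantoms of `X` act as zero on the Chow groups of `X`, then the filtration of every
   Chow-Kunneth decomposition is the image of that of `π` under an automorphism given by a
   correspondence of degree zero which acts as the identity on the cohomology.
-/

open CategoryTheory AlgebraicGeometry

set_option autoImplicit false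

universe u v w

namespace Pool.Agent.Results.MP_10f4af_ag.OneLargeSummand

open Pool.Agent.H914 Pool.Agent.W492.BB Pool.Agent.W550.Corr Pool.Agent.TH133 Pool.Agent.U3.SD
  Pool.Agent.U3.UC

/-- Classification of the Chow-Kunneth decompositions of a variety all of whose motivic summands
`h^n(X)`, `n ≠ m`, are finite-dimensional; uniqueness; independence of the filtration. -/
theorem result {k : Type u} [Field k] {𝒱 : VarClass k} (C : TheoryData.{u, v, 0} 𝒱 ℚ)
    [IsChowProj C] {K : Type w} [Field K] (H : WeilTheoryData.{u, v, w} C K) [IsWeilProj H]
    (X : 𝒱.Obj) (π : ℕ → C.A (X.prod X)) (hπ : IsCK H X π) (m : ℕ) (hm : m ≤ 2 * X.dim)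
    (hfin : ∀ n, n ≤ 2 * X.dim → n ≠ m → HomNil H (π n)) :
    (∀ π' : ℕ → C.A (X.prod X), IsCK H X π' ↔
      ∃ p, PhantomFamily H π m p ∧ Conjugate H (movePhantoms π m p) π') ∧
    (UniqueUpToConjugation H X ↔ NoPhantoms H X) ∧
    (MurreC H X ↔ PhantomsActTrivially H X ∧ RaisingActsTrivially C π) ∧
    (PhantomsActTrivially H X → ∀ π', IsCK H X π' → ∃ s t : C.A (X.prod X),
      C.Deg X.dim s ∧ C.Deg X.dim t ∧ C.comp s t = dg C X ∧ C.comp t s = dg C X ∧
      (∀ a : H.A X, H.act (H.cl s) a = a) ∧ ∀ (i n : ℕ) (x : C.A X),
        x ∈ ckFil C π' i n ↔ C.act s x ∈ ckFil C π i n) := by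
  refine ⟨classification hπ hm hfin, unique_iff hπ hm hfin, murreC_iff hπ hm hfin,
    fun hph π' h' => ?_⟩
  obtain ⟨s, t, h1, h2, h3, -, h4⟩ := fil_image hπ hm hfin hph h'
  exact ⟨(s : Cor C X), (t : Cor C X), s.2, t.2,
    congrArg (fun x : cor0 C X => (x : Cor C X)) h2,
    congrArg (fun x : cor0 C X => (x : Cor C X)) h1, fun a => LinearMap.congr_fun h3 a, h4⟩

end Pool.Agent.Results.MP_10f4af_ag.OneLargeSummand
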