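import Pool.Agent.X308.S.Good
import Pool.Agent.X308.S.TriMain

/-!
# Independence of the Chow-Kunneth filtration for the varieties of surface type

`𝒱` is a class of smooth projective geometrically irreducible varieties over the field `k` closed
under products (for example all of them), `C` the Chow groups with rational coefficients (in the
form of their formal properties, `IsChowProj`), `H` a Weil cohomology theory (`IsWeilProj`), and
`SurfaceProperties H` records two known facts: homologically trivial divisor classes on a product
`X × Y` are sums of pull-backs from the factors, and every surface has the Chow-Kunneth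
decomposition constructed by Murre.

Let `X` be a variety of any dimension whose diagonal is a sum of correspondences which factor
through surfaces (`dg C X ∈ throughSurfaces C X`): the Chow motive of `X` is a direct summand of a
finite sum of twists of motives of surfaces.

**Theorem.** The following are equivalent.

1. (B) for all Chow-Kunneth decompositions of `X`: `F^0 CH^i(X) = CH^i(X)`, `F^(i+1) CH^i(X) = 0`.
2. The second half of (B) for all Chow-Kunneth decompositions of `X`: `F^(i+1) CH^i(X) = 0`.
3. (C): the filtrations `F^n CH^i(X)` do not depend on the Chow-Kunneth decomposition.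
4. (D) for all Chow-Kunneth decompositions of `X`: `F^1 CH^i(X)` consists of the homologically
   trivial cycles.
5. There are no phantoms: homologically trivial idempotents in `CH^d(X × X)` act as zero on the
   Chow groups of `X`.

Moreover, the independence of one step of the filtration in each codimension implies (C): if for
each `l` an index `n l` with `2 l - 2 dim X < n l ≤ 2 l` is given such that `F^(n l) CH^l(X)` does not
depend on the Chow-Kunneth decomposition, then no step depends on it.
-/

set_option autoImplicit false

open CategoryTheory AlgebraicGeometry

universe u v w

namespace Pool.Agent.Results.MP_10f4af_ag.SurfaceType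

open Pool.Agent.H914 Pool.Agent.H914.VarClass Pool.Agent.H914.VarClass.Obj Pool.Agent.W492.BB
  Pool.Agent.W550.Corr Pool.Agent.TH133 Pool.Agent.X308.S

/-- **Murre's conjectures (B), (C), (D) for all Chow-Kunneth decompositions of a variety of surface
type are equivalent to each other, to the absence of phantoms, and to the independence of one step
of the filtration in each codimension.** -/
theorem result {k : Type u} [Field k] {𝒱 : VarClass k} {C : TheoryData.{u, v, 0} 𝒱 ℚ} {K : Type w}
    [Field K] [IsChowProj C] {H : WeilTheoryData.{u, v, w} C K} [IsWeilProj H]
    (hS : SurfaceProperties H) (X : 𝒱.Obj) (hX : dg C X ∈ throughSurfaces C X) :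
    List.TFAE [MurreB0 H X ∧ MurreB1 H X, MurreB1 H X, MurreC H X, MurreD H X,
      PhantomsActTrivially H X] ∧
    ∀ n : ℕ → ℕ, (∀ l, 2 * l < n l + 2 * X.dim ∧ n l ≤ 2 * l) →
      (∀ π π', IsCK H X π → IsCK H X π' → ∀ l, ckFil C π l (n l) = ckFil C π' l (n l)) →
      MurreC H X := by
  obtain ⟨π, h1, -, h3⟩ := exists_selfDual_CK hS hX
  have hT : NoRaising C π := noRaising_of_wt hS h3
  refine ⟨tfae_murre h1 hT (B0_of_wt h1 h3) (B1_of_wt hS h1 h3) (D_of_wt hS h1 h3), ?_⟩
  intro n hn hind
  exact murreC_of_phantoms h1 hT (phantoms_of_step h1 hT n hn hind)

end Pool.Agent.Results.MP_10f4af_ag.SurfaceType
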