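import Pool.Agent.U724.CH.KunU

/-!
# MP_10f4af_ag: two Chow–Künneth decompositions of Lefschetz type are unipotently conjugate

Let `X` be a smooth projective variety over a field `k`, `d = dim X`, and `e` a nilpotent
self-correspondence of `X` (the intersection with the class of an ample divisor). A Chow–Künneth
decomposition `π` of `X` (here `π_i` is the projector to `H ^ (d + i)`) is of Lefschetz type for `e` if
`e π_i = π_(i + 2) e` and there is a correspondence `f` with `f π_(i + 2) = π_i f` and
`[e, f] = ∑ i π_i`. This is the case for the known decompositions of curves, surfaces and abelian
varieties (Künnemann), and it is equivalent to the hard Lefschetz theorem for the Chow motives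
`h ^ i (X)`.

Theorem. Let `π` and `π'` be two Chow–Künneth decompositions of `X` of Lefschetz type for the same `e`.

(1) There is a self-correspondence `ν` of `X`, homologically trivial and with `ν ^ (2 N) = 0` if
`e ^ N = 0`, such that `1 + ν` commutes with `e` and `π'_i = (1 + ν) π_i (1 + ν)^(-1)` for all `i`, and
`ν` strictly raises the index: `π_j ν π_i = 0` for `j ≤ i`.

(2) `π'_j π_i = 0` for `j < i`. So the motives `⊕_(i ≥ m) h ^ i (X)` and the subgroups
`⊕_(i ≥ m) π_i CH (X)` do not depend on the decomposition.

For the filtrations of the problem (the sums `F ^ k CH ^ i (X)` of the `π_j CH ^ i (X)` over
`j ≤ 2 i - k`, in the numbering of the problem) this gives `F' = (1 + ν) F`: they are conjugate by an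
automorphism of `h (X)` which is the identity in the cohomology, and they are equal if `ν` maps each
`F ^ k` into itself; `ν` is a sum of correspondences from `h ^ i (X)` to `h ^ j (X)` with `i < j`, which are
zero by Murre's conjecture (B) for `X × X` (Jannsen), and then `π' = π`.

It is known that all Chow–Künneth decompositions of `X` are conjugate if the homologically trivial
self-correspondences are nilpotent, for instance if `X` is finite-dimensional in the sense of Kimura.
Nothing of this kind is assumed here: there may be phantom motives and homologically trivial
correspondences which are not nilpotent.

Idea of the proof. Let `h = ∑ i π_i`, `h' = ∑ i π'_i`. Then `n = h' - h = [e, f' - f]` commutes with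
`e`. For a nilpotent `e` in a `ℚ`-algebra of any dimension with `[h, e] = 2 e`, `h = [e, f]`, the
intersection of the kernel and the image of `ad e` is killed by a product of factors `ad h - l`,
`l ≥ 1`; so `π_j n π_i = 0` for `j ≤ i`. Then `h'` is congruent to `h` modulo the nilpotent ideal of
the elements which strictly raise the index, in the algebra of those which do not lower it, and
`1 + ν = ∑ π'_i π_i` is the required unit.

The setting. The Chow group `Chow X` of a scheme `X` (cycles of all dimensions with rational
coefficients modulo rational equivalence) is defined with the order of vanishing of Mathlib.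
Intersection theory enters through the category `C` of Chow motives over `k` with the correspondences
of all degrees as morphisms: a symmetric monoidal category with objects `h (X)` for the varieties `X`
over `k`, self-dual, with `Hom (1, h (X)) = Chow X` and `h (X × Y) = h (X) ⊗ h (Y)` (structure
`Motives`). `R` is a Weil cohomology with coefficient field `K` of characteristic zero, a tensor
functor from `C` to super vector spaces; `W` is the operator on the cohomology of `X` which is the
multiplication by `i - d` on `H ^ i (X)`.
-/

set_option autoImplicit false

open CategoryTheory MonoidalCategory Module
open Pool.Agent.Y112.SR Pool.Agent.U724.CH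

namespace Pool.Agent.Results.MP_10f4af_ag.UnipotentConjugation

universe u u' v w

/-- Two Chow–Künneth decompositions of Lefschetz type for the same `e` are conjugate by a unipotent
correspondence which is homologically trivial up to the identity and raises the index. -/
theorem result {k : Type u} [Field k] {C : Type u'} [Category.{v} C] [Preadditive C]
    [MonoidalCategory C] [SymmetricCategory C] [Linear ℚ C] (M : Motives k C)
    {K : Type w} [Field K] (R : SuperRealisation C K)
    (X : Sch k) (hX : M.IsVar X) (W : Module.End K (M.Coh R X))
    (hW : ⨆ i : ℤ, W.eigenspace (i : K) = ⊤) (e : Chow (prod X X).left) (N : ℕ)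
    (hN : M.ring hX e ^ N = 0) (π π' : ℤ → Chow (prod X X).left)
    (f f' : Chow (prod X X).left) (h : M.IsLCK R hX W e N π f)
    (h' : M.IsLCK R hX W e N π' f') :
    (∃ ν, M.IsConj R hX e N π π' ν) ∧
      ∀ j i, j < i → M.ring hX (π' j) * M.ring hX (π i) = 0 :=
  M.lck_unique R hX hW hN h h'

end Pool.Agent.Results.MP_10f4af_ag.UnipotentConjugation
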